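import Mathlib
import Pool.Agent.Q98.SG6

set_option autoImplicit false

namespace Pool.Agent.Results.MP_5544e1_an.RotundStrongGurarii

/-- `X` is of universal disposition for the class of all finite-dimensional Banach spaces: every
isometric embedding of a subspace `S` of a finite-dimensional space `E` into `X` extends to an
isometric embedding of `E` into `X`. -/
def IsUniversalDispositionFD (X : Type) [NormedAddCommGroup X] [NormedSpace ℝ X] : Prop :=
  ∀ (E : Type) [NormedAddCommGroup E] [NormedSpace ℝ E] [FiniteDimensional ℝ E]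
    (S : Submodule ℝ E) (f : S →ₗᵢ[ℝ] X), ∃ g : E →ₗᵢ[ℝ] X, ∀ s : S, g s = f s

/-- A strong Gurarii space: a Banach space of universal disposition for the class of all
finite-dimensional Banach spaces. -/
def IsStrongGurarii (X : Type) [NormedAddCommGroup X] [NormedSpace ℝ X] : Prop :=
  CompleteSpace X ∧ IsUniversalDispositionFD X

/-- `X` carries an equivalent norm `N` which is rotund: `N (x + y) = 2 N x = 2 N y` implies
`x = y`. -/
def HasRotundRenorming (X : Type) [NormedAddCommGroup X] [NormedSpace ℝ X] : Prop :=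
  ∃ N : Seminorm ℝ X, (∃ a : ℝ, 0 < a ∧ ∃ b : ℝ, ∀ x, a * ‖x‖ ≤ N x ∧ N x ≤ b * ‖x‖) ∧
    ∀ x y, N (x + y) = 2 * N x → N (x + y) = 2 * N y → x = y

/-- **There is a strong Gurarii space which has a rotund renorming.** -/
theorem result : ∃ (X : Type) (_ : NormedAddCommGroup X) (_ : NormedSpace ℝ X),
    IsStrongGurarii X ∧ HasRotundRenorming X := by
  obtain ⟨L, hL⟩ := Q98.SG.exists_injective
  refine ⟨Q98.SG.Xs, inferInstance, inferInstance, ⟨inferInstance, ?_⟩, ?_⟩
  · intro E _ _ _ S f
    exact Q98.SG.universal_disposition S f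
  · exact Q98.SG.rotund_of_injective L hL

end Pool.Agent.Results.MP_5544e1_an.RotundStrongGurarii
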